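import Mathlib
import Pool.Agent.N969.P17G.Defs
import Pool.Agent.N969.P17G.Defs2

/-!
# Signs of the vectors of the two ternary lattices: interface and assembly

`HasSign n p`: the local signs at `p` are products of sign functions of the vectors.
-/

set_option autoImplicit false

namespace Pool.Agent.N970.P17G

open Finset
open Pool.Agent.N969.P15 (V3)
open Pool.Agent.N972.P17
open Pool.Agent.N969.P17G

noncomputable section

/-- the local sign -/
def Sg (k p n : ℕ) (T : ℤ) : ℤ := if p = 2 then sg2 k n T else sgp k n p T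

/-- the local signs at `p` come from sign functions on the vectors of norm `n` -/
def HasSign (n p : ℕ) : Prop := ∃ f g : V3 → ℤ,
  (∀ v, f v = 1 ∨ f v = -1) ∧ (∀ v, g v = 1 ∨ g v = -1) ∧
  (∀ v ∈ vec1 n, ∀ w ∈ vec1 n, Sg 1 p n ((n + ip1 v w) / 2) = f v * f w) ∧
  (∀ v ∈ vec2 n, ∀ w ∈ vec2 n, Sg 1 p n ((n + ip2 v w) / 2) = g v * g w) ∧
  (∀ v ∈ vec1 n, ∀ w ∈ vec2 n, Sg 2 p n (2 * (2 * n + ipx v w)) = f v * g w)

end

end Pool.Agent.N970.P17G
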