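import Mathlib
import Pool.Agent.N969.P17G.Defs2

/-!
# The Hilbert symbol `(T, -n)_2`, `-n` an even fundamental discriminant
-/

set_option autoImplicit false

namespace Pool.Agent.N970.P17G

open Finset
open Pool.Agent.N969.P15 (c2 Ev)
open Pool.Agent.N969.P17G

noncomputable section

/-- the Hilbert symbol `(T, -n)_2` for `T ≠ 0` -/
def hs (n : ℕ) (T : ℤ) : ℤ := c2 n (T / 2 ^ padicValInt 2 T) * t2 n ^ padicValInt 2 T

theorem t2_pm (n : ℕ) : t2 n = 1 ∨ t2 n = -1 := by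
  unfold t2
  split_ifs <;> simp

theorem t2_sq (n : ℕ) : t2 n * t2 n = 1 := by
  rcases t2_pm n with h | h <;> rw [h] <;> norm_num

theorem c2_pm (n : ℕ) {u : ℤ} (hu : u % 2 = 1) : c2 n u = 1 ∨ c2 n u = -1 := by
  unfold c2
  rw [if_neg (by omega)]
  split_ifs <;> simp

theorem c2_one (n : ℕ) : c2 n 1 = 1 := by
  unfold c2
  norm_num

theorem c2_mod (n : ℕ) {u w : ℤ} (h : u % 8 = w % 8) : c2 n u = c2 n w := by
  unfold c2
  have h2 : u % 2 = w % 2 := by omega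
  have h4 : u % 4 = w % 4 := by omega
  rw [h2, h4, h]

theorem c2_mul (n : ℕ) {u w : ℤ} (hu : u % 2 = 1) (hw : w % 2 = 1) :
    c2 n (u * w) = c2 n u * c2 n w := by
  have h1 : u % 8 = 1 ∨ u % 8 = 3 ∨ u % 8 = 5 ∨ u % 8 = 7 := by omega
  have h2 : w % 8 = 1 ∨ w % 8 = 3 ∨ w % 8 = 5 ∨ w % 8 = 7 := by omega
  have key : ∀ a b : ℤ, u % 8 = a → w % 8 = b → c2 n (u * w) = c2 n (a * b) ∧
      c2 n u = c2 n a ∧ c2 n w = c2 n b := by
    intro a b ha hb
    refine ⟨c2_mod n ?_, c2_mod n ?_, c2_mod n ?_⟩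
    · rw [Int.mul_emod, ha, hb]
    · rw [← ha, Int.emod_emod_of_dvd _ (dvd_refl _)]
    · rw [← hb, Int.emod_emod_of_dvd _ (dvd_refl _)]
  have v1 : ∀ r : ℤ, r % 8 = 1 → c2 n r = 1 := by
    intro r hr
    rw [c2_mod n (w := 1) (by omega), c2_one]
  have hn : (n % 16 = 4 ∧ c2 n 3 = -1 ∧ c2 n 5 = 1 ∧ c2 n 7 = -1) ∨
      (¬ n % 16 = 4 ∧ n % 32 = 8 ∧ c2 n 3 = 1 ∧ c2 n 5 = -1 ∧ c2 n 7 = -1) ∨
      (¬ n % 16 = 4 ∧ ¬ n % 32 = 8 ∧ c2 n 3 = -1 ∧ c2 n 5 = -1 ∧ c2 n 7 = 1) := by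
    by_cases a1 : n % 16 = 4
    · left
      simp [c2, a1]
    · by_cases a2 : n % 32 = 8
      · right; left
        simp [c2, a1, a2]
      · right; right
        simp [c2, a1, a2]
  have c9 : c2 n 9 = 1 := v1 9 (by norm_num)
  have c15 : c2 n 15 = c2 n 7 := c2_mod n (by norm_num)
  have c21 : c2 n 21 = c2 n 5 := c2_mod n (by norm_num)
  have c25 : c2 n 25 = 1 := v1 25 (by norm_num)
  have c35 : c2 n 35 = c2 n 3 := c2_mod n (by norm_num)
  have c49 : c2 n 49 = 1 := v1 49 (by norm_num)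
  have c1 := c2_one n
  rcases h1 with h1 | h1 | h1 | h1 <;> rcases h2 with h2 | h2 | h2 | h2 <;>
    (obtain ⟨k1, k2, k3⟩ := key _ _ h1 h2
     rw [k1, k2, k3]
     norm_num only
     try rw [c9]
     try rw [c15]
     try rw [c21]
     try rw [c25]
     try rw [c35]
     try rw [c49]
     try rw [c1]
     rcases hn with ⟨_, a3, a5, a7⟩ | ⟨_, _, a3, a5, a7⟩ | ⟨_, _, a3, a5, a7⟩ <;>
       (try simp only [a3, a5, a7]) <;> norm_num)

theorem val_of {u : ℤ} (hu : u % 2 = 1) (v : ℕ) : padicValInt 2 (2 ^ v * u) = v := by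
  have hu0 : u ≠ 0 := by rintro rfl; omega
  rw [padicValInt.mul (pow_ne_zero _ two_ne_zero) hu0]
  have h1 : padicValInt 2 u = 0 := by
    apply padicValInt.eq_zero_of_not_dvd
    intro h
    have : (2 : ℤ) ∣ u := by exact_mod_cast h
    omega
  have h2 : padicValInt 2 ((2 : ℤ) ^ v) = v := by
    rw [padicValInt]
    have : ((2 : ℤ) ^ v).natAbs = 2 ^ v := by
      rw [Int.natAbs_pow]; rfl
    rw [this, padicValNat.prime_pow]
  rw [h1, h2, add_zero]

theorem hs_of (n : ℕ) {u : ℤ} (hu : u % 2 = 1) (v : ℕ) : hs n (2 ^ v * u) = c2 n u * t2 n ^ v := by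
  unfold hs
  rw [val_of hu, Int.mul_ediv_cancel_left _ (pow_ne_zero _ two_ne_zero)]

theorem exists_odd {T : ℤ} (hT : T ≠ 0) : ∃ (v : ℕ) (u : ℤ), u % 2 = 1 ∧ T = 2 ^ v * u := by
  obtain ⟨v, u, hu, h⟩ := Nat.exists_eq_two_pow_mul_odd (Int.natAbs_ne_zero.2 hT)
  have hu2 := Nat.odd_iff.1 hu
  rcases Int.natAbs_eq T with h1 | h1
  · refine ⟨v, u, by omega, ?_⟩
    rw [h1, h]; push_cast; ring
  · refine ⟨v, -u, by omega, ?_⟩
    rw [h1, h]; push_cast; ring

theorem hs_pm (n : ℕ) {T : ℤ} (hT : T ≠ 0) : hs n T = 1 ∨ hs n T = -1 := by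
  obtain ⟨v, u, hu, rfl⟩ := exists_odd hT
  rw [hs_of n hu]
  rcases c2_pm n hu with h1 | h1 <;> rcases t2_pm n with h2 | h2 <;> rw [h1, h2]
  · simp
  · rcases neg_one_pow_eq_or ℤ v with h | h <;> rw [h] <;> simp
  · simp
  · rcases neg_one_pow_eq_or ℤ v with h | h <;> rw [h] <;> simp

theorem hs_mul (n : ℕ) {a b : ℤ} (ha : a ≠ 0) (hb : b ≠ 0) : hs n (a * b) = hs n a * hs n b := by
  obtain ⟨v, u, hu, rfl⟩ := exists_odd ha
  obtain ⟨v', u', hu', rfl⟩ := exists_odd hb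
  have h : (2 : ℤ) ^ v * u * (2 ^ v' * u') = 2 ^ (v + v') * (u * u') := by
    rw [pow_add]; ring
  have ho : (u * u') % 2 = 1 := by rw [Int.mul_emod, hu, hu']; rfl
  rw [h, hs_of n ho, hs_of n hu, hs_of n hu', c2_mul n hu hu', pow_add]
  ring

theorem hs_sq (n : ℕ) {a : ℤ} (ha : a ≠ 0) : hs n (a ^ 2) = 1 := by
  rw [pow_two, hs_mul n ha ha]
  rcases hs_pm n ha with h | h <;> rw [h] <;> norm_num

theorem hs_sq_mul (n : ℕ) {a b : ℤ} (ha : a ≠ 0) (hb : b ≠ 0) : hs n (a ^ 2 * b) = hs n b := by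
  rw [hs_mul n (pow_ne_zero 2 ha) hb, hs_sq n ha, one_mul]

theorem hs_neg_one (n : ℕ) : hs n (-1) = c2 n (-1) := by
  have := hs_of n (u := -1) (by norm_num) 0
  simpa using this

theorem hs_two (n : ℕ) : hs n 2 = t2 n := by
  have := hs_of n (u := 1) (by norm_num) 1
  simpa [c2_one] using this

/-- the symbol only depends on the leading digits -/
theorem hs_near (n : ℕ) {a : ℤ} (ha : a ≠ 0) : ∃ k : ℕ, ∀ b : ℤ, hs n (a + 2 ^ k * b) = hs n a := by
  obtain ⟨v, u, hu, rfl⟩ := exists_odd ha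
  refine ⟨v + 3, fun b => ?_⟩
  have h : (2 : ℤ) ^ v * u + 2 ^ (v + 3) * b = 2 ^ v * (u + 8 * b) := by rw [pow_add]; ring
  rw [h, hs_of n (by omega), hs_of n hu, c2_mod n (u := u + 8 * b) (w := u) (by omega)]

theorem sq8 {x : ℤ} (hx : x % 2 = 1) : ∃ q, x ^ 2 = 8 * q + 1 := by
  obtain ⟨t, rfl⟩ : ∃ t, x = 2 * t + 1 := ⟨x / 2, by omega⟩
  obtain ⟨w, hw⟩ := Int.even_mul_succ_self t
  exact ⟨w, by linear_combination 4 * hw⟩

/-- the norms from `ℚ_2(√-m)` -/
theorem hs_norm_aux {m : ℕ} (hm : m % 4 = 1 ∨ m % 4 = 2) :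
    ∀ (N : ℕ) (x z : ℤ), x.natAbs + z.natAbs ≤ N → x ^ 2 + m * z ^ 2 ≠ 0 →
      hs (4 * m) (x ^ 2 + m * z ^ 2) = 1 := by
  intro N
  induction N with
  | zero =>
    intro x z h h0
    exfalso
    have hx : x = 0 := by omega
    have hz : z = 0 := by omega
    apply h0
    rw [hx, hz]; ring
  | succ N ih =>
    intro x z h h0
    rcases Int.emod_two_eq_zero_or_one x with hx | hx
    · obtain ⟨x', rfl⟩ : ∃ t, x = 2 * t := ⟨x / 2, by omega⟩
      rcases Int.emod_two_eq_zero_or_one z with hz | hz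
      · obtain ⟨z', rfl⟩ : ∃ t, z = 2 * t := ⟨z / 2, by omega⟩
        have e : (2 * x') ^ 2 + (m : ℤ) * (2 * z') ^ 2 = 2 ^ 2 * (x' ^ 2 + m * z' ^ 2) := by ring
        rw [e] at h0 ⊢
        have h1 : x' ^ 2 + (m : ℤ) * z' ^ 2 ≠ 0 := right_ne_zero_of_mul h0
        rw [hs_sq_mul _ two_ne_zero h1]
        refine ih x' z' ?_ h1
        have hne : x' ≠ 0 ∨ z' ≠ 0 := by
          by_contra hc
          push Not at hc
          apply h1
          rw [hc.1, hc.2]; ring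
        have e1 : (2 * x').natAbs = 2 * x'.natAbs := by rw [Int.natAbs_mul]; rfl
        have e2 : (2 * z').natAbs = 2 * z'.natAbs := by rw [Int.natAbs_mul]; rfl
        rw [e1, e2] at h
        omega
      · -- `x` even, `z` odd
        obtain ⟨q, hq⟩ := sq8 hz
        obtain ⟨q', hq'⟩ : ∃ q', (x' ^ 2 = 4 * q' ∨ x' ^ 2 = 4 * q' + 1) := by
          rcases Int.emod_two_eq_zero_or_one x' with h | h
          · obtain ⟨t, rfl⟩ : ∃ t, x' = 2 * t := ⟨x' / 2, by omega⟩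
            exact ⟨t ^ 2, Or.inl (by ring)⟩
          · obtain ⟨t, ht⟩ := sq8 h
            exact ⟨2 * t, Or.inr (by linarith)⟩
        rcases hm with hm | hm
        · obtain ⟨j, hj⟩ : ∃ j, m = 4 * j + 1 := ⟨m / 4, by omega⟩
          have e : (2 * x') ^ 2 + (m : ℤ) * z ^ 2 = 2 ^ 0 * (4 * (x' ^ 2 + 2 * m * q + j) + 1) := by
            rw [hq, hj]; push_cast; ring
          rw [e, hs_of _ (by omega)]
          generalize x' ^ 2 + 2 * (m : ℤ) * q + j = w
          rw [pow_zero, mul_one]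
          unfold c2
          rw [if_neg (by omega), if_pos (by omega), if_pos (by omega)]
        · obtain ⟨m', hm'⟩ : ∃ m', m = 2 * m' := ⟨m / 2, by omega⟩
          have hodd : m' % 2 = 1 := by omega
          have e : (2 * x') ^ 2 + (m : ℤ) * z ^ 2 = 2 ^ 1 * (2 * x' ^ 2 + 8 * (m' * q) + m') := by
            rw [hq, hm']; push_cast; ring
          rw [e]
          generalize (m' : ℤ) * q = w
          rw [hs_of _ (by omega), pow_one]
          unfold c2 t2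
          have h8 : 4 * m / 8 = m' := by omega
          rw [h8, if_neg (by omega), if_neg (by omega : ¬ 4 * m % 16 = 4),
            if_neg (by omega : ¬ 4 * m % 8 = 4)]
          rcases hq' with hq' | hq' <;> rw [hq'] <;> split_ifs <;> omega
    · obtain ⟨q, hq⟩ := sq8 hx
      rcases Int.emod_two_eq_zero_or_one z with hz | hz
      · obtain ⟨z', rfl⟩ : ∃ t, z = 2 * t := ⟨z / 2, by omega⟩
        rcases hm with hm | hm
        · have e : x ^ 2 + (m : ℤ) * (2 * z') ^ 2 = 2 ^ 0 * (4 * (2 * q + m * z' ^ 2) + 1) := by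
            rw [hq]; ring
          rw [e, hs_of _ (by omega)]
          generalize 2 * q + (m : ℤ) * z' ^ 2 = w
          rw [pow_zero, mul_one]
          unfold c2
          rw [if_neg (by omega), if_pos (by omega), if_pos (by omega)]
        · obtain ⟨m', hm'⟩ : ∃ m', m = 2 * m' := ⟨m / 2, by omega⟩
          have e : x ^ 2 + (m : ℤ) * (2 * z') ^ 2 = 2 ^ 0 * (8 * (q + m' * z' ^ 2) + 1) := by
            rw [hq, hm']; push_cast; ring
          rw [e, hs_of _ (by omega)]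
          generalize q + (m' : ℤ) * z' ^ 2 = w
          rw [pow_zero, mul_one, c2_mod (4 * m) (u := 8 * w + 1) (w := 1) (by omega), c2_one]
      · obtain ⟨q', hq'⟩ := sq8 hz
        rcases hm with hm | hm
        · obtain ⟨j, hj⟩ : ∃ j, m = 4 * j + 1 := ⟨m / 4, by omega⟩
          have e : x ^ 2 + (m : ℤ) * z ^ 2 = 2 ^ 1 * (4 * (q + m * q') + 2 * j + 1) := by
            rw [hq, hq', hj]; push_cast; ring
          rw [e]
          generalize q + (m : ℤ) * q' = w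
          rw [hs_of _ (by omega), pow_one]
          unfold c2 t2
          rw [if_neg (by omega), if_pos (by omega : 4 * m % 16 = 4),
            if_pos (by omega : 4 * m % 8 = 4)]
          split_ifs <;> omega
        · obtain ⟨m', hm'⟩ : ∃ m', m = 2 * m' := ⟨m / 2, by omega⟩
          have hodd : m' % 2 = 1 := by omega
          have e : x ^ 2 + (m : ℤ) * z ^ 2 = 2 ^ 0 * (8 * (q + 2 * m' * q') + 2 * m' + 1) := by
            rw [hq, hq', hm']; push_cast; ring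
          rw [e]
          generalize q + 2 * (m' : ℤ) * q' = w
          rw [hs_of _ (by omega), pow_zero, mul_one]
          unfold c2
          rw [if_neg (by omega), if_neg (by omega : ¬ 4 * m % 16 = 4)]
          split_ifs <;> omega

theorem hs_norm {n : ℕ} (hn : Ev n) {x y : ℤ} (h : x ^ 2 + n * y ^ 2 ≠ 0) :
    hs n (x ^ 2 + n * y ^ 2) = 1 := by
  obtain ⟨m, rfl, _, hm⟩ := hn
  have e : x ^ 2 + ((4 * m : ℕ) : ℤ) * y ^ 2 = x ^ 2 + m * (2 * y) ^ 2 := by push_cast; ring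
  rw [e] at h ⊢
  exact hs_norm_aux hm _ x (2 * y) le_rfl h

/-- `-7` is a square modulo the powers of two -/
theorem sqrt_neg_seven (k : ℕ) : ∃ s w : ℤ, s % 2 = 1 ∧ s ^ 2 + 7 = 2 ^ (k + 3) * w := by
  induction k with
  | zero => exact ⟨1, 1, by norm_num, by norm_num⟩
  | succ k ih =>
    obtain ⟨s, w, hs, hw⟩ := ih
    rcases Int.emod_two_eq_zero_or_one w with h | h
    · obtain ⟨w', rfl⟩ : ∃ t, w = 2 * t := ⟨w / 2, by omega⟩
      exact ⟨s, w', hs, by rw [hw, pow_succ]; ring⟩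
    · refine ⟨s + 2 ^ (k + 2), (w + s) / 2 + 2 ^ k, ?_, ?_⟩
      · have : (2 : ℤ) ^ (k + 2) = 2 * 2 ^ (k + 1) := by rw [pow_succ]; ring
        rw [this]
        omega
      · have h2 : 2 * ((w + s) / 2) = w + s := by omega
        have e1 : (2 : ℤ) ^ (k + 1 + 3) = 2 ^ (k + 3) * 2 := by ring
        have e2 : (2 : ℤ) ^ (k + 3) = 8 * 2 ^ k := by ring
        have e3 : (2 : ℤ) ^ (k + 2) = 4 * 2 ^ k := by ring
        rw [e1, e2, e3]
        rw [e2] at hw
        linear_combination hw - 8 * 2 ^ k * h2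

end

end Pool.Agent.N970.P17G
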