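import Mathlib
import Pool.Agent.N970.P17.PC
import Pool.Agent.N970.P17G.Hs
import Pool.Agent.N970.P17G.Sign

/-!
# The sign at two
-/

set_option autoImplicit false

namespace Pool.Agent.N970.P17G

open Finset
open Pool.Agent.N969.P15 (V3 c2 Ev)
open Pool.Agent.N972.P17
open Pool.Agent.N969.P17G
open Pool.Agent.N970.PC
open Pool.Agent.N970.P17 (L1 L2 mem_vec1 mem_vec2 ip1_eq ip2_eq)
open Pool.Agent.N816.P17 (bi F1 F2 biG1 biG2 bi1 bi2)
open Pool.Agent.Y288.Z7 (dd3 crs crs0 crs1 crs2)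

noncomputable section

/-- twice the map from the second to the first lattice -/
def mu (w : V3) : V3 := ![w 0 - 3 * w 1 + 2 * w 2, w 0 + w 1, 2 * w 2]

theorem mu0 (w : V3) : mu w 0 = w 0 - 3 * w 1 + 2 * w 2 := rfl
theorem mu1 (w : V3) : mu w 1 = w 0 + w 1 := rfl
theorem mu2 (w : V3) : mu w 2 = 2 * w 2 := rfl

theorem bi_mu_mu (v w : V3) : bi G1 (mu v) (mu w) = 4 * bi G2 v w := by
  rw [biG1, biG2, mu0, mu1, mu2, mu0, mu1, mu2]; ring

theorem bi_mu (v w : V3) : bi G1 v (mu w) = ipx v w := by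
  rw [biG1, mu0, mu1, mu2, ipx]; ring

/-- the cocycle identity -/
theorem cocyc {c0 : ℕ} {F G : Matrix (Fin 3) (Fin 3) ℤ} (L : Lat c0 F G) {N : ℤ} (hN : N ≠ 0)
    {x y z : Fin 3 → ℤ} (hx : bi G x x = N) (hy : bi G y y = N) (hz : bi G z z = N) :
    2 * ((N + bi G x y) * (N + bi G y z) * (N + bi G x z)) =
      (2 * c0 * dd3 x y z) ^ 2 + N * (N + (bi G x y + bi G y z + bi G x z)) ^ 2 := by
  have h1 := L.lag x y y
  have h2 := L.lag x z z
  have h3 := L.lag x y z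
  have h4 := L.dual x y z
  rw [hx] at h1 h2 h3 h4
  rw [hy] at h1
  rw [hz] at h2
  apply mul_left_cancel₀ hN
  have h5 : (N * N - bi G x y * bi G x y) * (N * N - bi G x z * bi G x z) -
      (N * bi G y z - bi G x y * bi G x z) ^ 2 = N * (2 * c0 * dd3 x y z) ^ 2 := by
    rw [h1, h2, h3]
    linear_combination (2 * (c0 : ℤ)) ^ 2 * h4
  linear_combination h5

/-- the comparison with an arbitrary third vector -/
theorem compare {c0 : ℕ} {F G : Matrix (Fin 3) (Fin 3) ℤ} (L : Lat c0 F G) (x y z : Fin 3 → ℤ) :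
    (bi G x x * bi G y y - bi G x y ^ 2) * (bi G x x * bi G z z - bi G x z ^ 2) =
      (bi G x x * bi G y z - bi G x y * bi G x z) ^ 2 + bi G x x * (2 * c0 * dd3 x y z) ^ 2 := by
  have h1 := L.lag x y y
  have h2 := L.lag x z z
  have h3 := L.lag x y z
  have h4 := L.dual x y z
  have h1' : bi G x x * bi G y y - bi G x y ^ 2 = 2 * c0 * bi F (crs x y) (crs x y) := by
    linear_combination h1
  have h2' : bi G x x * bi G z z - bi G x z ^ 2 = 2 * c0 * bi F (crs x z) (crs x z) := by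
    linear_combination h2
  rw [h1', h2', h3]
  linear_combination (2 * (c0 : ℤ)) ^ 2 * h4

/-- the sign of a pair of vectors of norm `4 n` in the first lattice -/
def KK (n : ℕ) (x y : V3) : ℤ :=
  if 4 * (n : ℤ) + bi G1 x y = 0 then c2 n (-1) else t2 n * hs n (4 * (n : ℤ) + bi G1 x y)

theorem c2_neg_pm (n : ℕ) : c2 n (-1) = 1 ∨ c2 n (-1) = -1 := c2_pm n (by norm_num)

theorem KK_pm (n : ℕ) (x y : V3) : KK n x y = 1 ∨ KK n x y = -1 := by
  unfold KK
  split_ifs with h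
  · exact c2_neg_pm n
  · rcases t2_pm n with h1 | h1 <;> rcases hs_pm n h with h2 | h2 <;> rw [h1, h2] <;> norm_num

theorem KK_sq (n : ℕ) (x y : V3) : KK n x y * KK n x y = 1 := by
  rcases KK_pm n x y with h | h <;> rw [h] <;> norm_num

theorem KK_comm (n : ℕ) (x y : V3) : KK n x y = KK n y x := by
  unfold KK
  rw [L1.comm x y]

theorem bi_neg (x y : V3) : bi G1 (-x) y = - bi G1 x y := by
  simp only [bi, Pi.neg_apply]; ring

theorem bi_neg' (x y : V3) : bi G1 x (-y) = - bi G1 x y := by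
  simp only [bi, Pi.neg_apply]; ring

/-- equality in the Cauchy-Schwarz inequality -/
theorem eq_neg {n : ℕ} {x y : V3} (hx : bi G1 x x = 4 * n) (hy : bi G1 y y = 4 * n)
    (h : 4 * (n : ℤ) + bi G1 x y = 0) : y = -x := by
  have h1 : bi G1 (x + y) (x + y) = 0 := by
    have e : bi G1 (x + y) (x + y) = bi G1 x x + 2 * bi G1 x y + bi G1 y y := by
      rw [biG1, biG1, biG1, biG1]; simp only [Pi.add_apply]; ring
    rw [e, hx, hy]
    linarith
  funext i
  have h2 := L1.bd (x + y) i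
  rw [h1] at h2
  have h3 := abs_eq_zero.1 (le_antisymm h2 (abs_nonneg _))
  have h4 : x i + y i = 0 := h3
  show y i = - x i
  linarith

/-- the vector of norm seven -/
def e7 : V3 := ![1, 0, 0]

theorem bi_e7 : bi G1 e7 e7 = 7 := by
  rw [biG1]; rfl

/-- the symbol of a vector and its opposite with a third one -/
theorem KK_neg {n : ℕ} (hn : Ev n) {x y : V3} (hx : bi G1 x x = 4 * n) (hy : bi G1 y y = 4 * n) :
    KK n x y * KK n (-x) y = c2 n (-1) := by
  have hn0 : (n : ℤ) ≠ 0 := by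
    obtain ⟨m, rfl, hs, _⟩ := hn
    have := hs.ne_zero
    exact_mod_cast (by omega : 4 * m ≠ 0)
  have hself : ∀ z : V3, bi G1 z z = 4 * n → KK n z z = 1 := by
    intro z hz
    unfold KK
    rw [hz, if_neg (by intro h; apply hn0; linarith)]
    have e : 4 * (n : ℤ) + 4 * n = 2 ^ 2 * (2 * n) := by ring
    rw [e, hs_sq_mul n two_ne_zero (mul_ne_zero two_ne_zero hn0), hs_mul n two_ne_zero hn0, hs_two]
    have h1 : hs n n = 1 := by
      have := hs_norm hn (x := 0) (y := 1) (by simpa using hn0)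
      simpa using this
    rw [h1, mul_one, t2_sq]
  have hopp : ∀ z : V3, bi G1 z z = 4 * n → KK n (-z) z = c2 n (-1) := by
    intro z hz
    unfold KK
    rw [bi_neg, hz, if_pos (by ring)]
  by_cases h1 : 4 * (n : ℤ) + bi G1 x y = 0
  · have := eq_neg hx hy h1
    subst this
    have h2 : bi G1 (-x) (-x) = 4 * n := hy
    rw [hself (-x) h2, KK_comm n x (-x), hopp x hx, mul_one]
  by_cases h2 : 4 * (n : ℤ) + bi G1 (-x) y = 0
  · have hx' : bi G1 (-x) (-x) = 4 * n := by rw [bi_neg, bi_neg', neg_neg, hx]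
    have := eq_neg hx' hy h2
    rw [neg_neg] at this
    subst this
    rw [hself y hx, hopp y hx, one_mul]
  · unfold KK
    rw [if_neg h1, if_neg h2]
    have e1 : t2 n * hs n (4 * (n : ℤ) + bi G1 x y) * (t2 n * hs n (4 * (n : ℤ) + bi G1 (-x) y)) =
        hs n ((4 * (n : ℤ) + bi G1 x y) * (4 * (n : ℤ) + bi G1 (-x) y)) := by
      rw [hs_mul n h1 h2]
      linear_combination hs n (4 * (n : ℤ) + bi G1 x y) * hs n (4 * (n : ℤ) + bi G1 (-x) y) * t2_sq n
    rw [e1]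
    have hg0 : (4 * (n : ℤ) + bi G1 x y) * (4 * (n : ℤ) + bi G1 (-x) y) ≠ 0 := mul_ne_zero h1 h2
    have hcmp := compare L1 x y e7
    rw [hx, hy, bi_e7] at hcmp
    have e2 : (4 * (n : ℤ) + bi G1 x y) * (4 * (n : ℤ) + bi G1 (-x) y) =
        4 * n * (4 * n) - bi G1 x y ^ 2 := by rw [bi_neg]; ring
    rw [e2] at hg0 ⊢
    -- the number `28 n - (x . e7)^2` is not zero
    have hA0 : 4 * (n : ℤ) * 7 - bi G1 x e7 ^ 2 ≠ 0 := by
      intro h
      obtain ⟨m, rfl, hs, hm⟩ := hn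
      generalize bi G1 x e7 = q at h
      push_cast at h
      rcases Int.emod_two_eq_zero_or_one q with hq | hq
      · obtain ⟨q1, rfl⟩ : ∃ t, q = 2 * t := ⟨q / 2, by omega⟩
        have h3 : q1 ^ 2 = 28 * m := by
          apply mul_left_cancel₀ (by norm_num : (4 : ℤ) ≠ 0)
          linear_combination -h
        rcases Int.emod_two_eq_zero_or_one q1 with hq | hq
        · obtain ⟨q2, rfl⟩ : ∃ t, q1 = 2 * t := ⟨q1 / 2, by omega⟩
          have h4 : q2 ^ 2 = 7 * m := by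
            apply mul_left_cancel₀ (by norm_num : (4 : ℤ) ≠ 0)
            linear_combination h3
          rcases Int.emod_two_eq_zero_or_one q2 with hq | hq
          · obtain ⟨q3, rfl⟩ : ∃ t, q2 = 2 * t := ⟨q2 / 2, by omega⟩
            have h5 : 4 * q3 ^ 2 = 7 * m := by linear_combination h4
            generalize q3 ^ 2 = r at h5
            omega
          · obtain ⟨r, hr⟩ := sq8 hq
            omega
        · obtain ⟨r, hr⟩ := sq8 hq
          omega
      · obtain ⟨r, hr⟩ := sq8 hq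
        omega
    have hA : hs n (4 * (n : ℤ) * 7 - bi G1 x e7 ^ 2) = c2 n (-1) := by
      obtain ⟨k, hk⟩ := hs_near n (neg_ne_zero.2 hA0)
      obtain ⟨s, w, _, hw⟩ := sqrt_neg_seven k
      have h3 := hk (2 ^ 3 * (w * (4 * n)))
      have e3 : -(4 * (n : ℤ) * 7 - bi G1 x e7 ^ 2) + 2 ^ k * (2 ^ 3 * (w * (4 * n))) =
          bi G1 x e7 ^ 2 + n * (2 * s) ^ 2 := by
        have e4 : (2 : ℤ) ^ (k + 3) = 2 ^ k * 2 ^ 3 := by rw [pow_add]
        rw [e4] at hw
        linear_combination (-(4 * (n : ℤ))) * hw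
      rw [e3] at h3
      have h4 : bi G1 x e7 ^ 2 + (n : ℤ) * (2 * s) ^ 2 ≠ 0 := by
        intro h0
        rw [← e3] at h0
        -- the number is congruent to a nonzero number
        have h5 := hk (2 ^ 3 * (w * (4 * n)) + 0)
        have hpos : 0 < (n : ℤ) := lt_of_le_of_ne (by positivity) (Ne.symm hn0)
        have hs0 : s ≠ 0 := by
          rintro rfl
          omega
        rw [e3] at h0
        nlinarith [sq_nonneg (bi G1 x e7), mul_pos hpos (by positivity : 0 < (2 * s) ^ 2)]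
      rw [hs_norm hn h4] at h3
      have h5 : hs n (4 * (n : ℤ) * 7 - bi G1 x e7 ^ 2) =
          hs n (-1) * hs n (-(4 * (n : ℤ) * 7 - bi G1 x e7 ^ 2)) := by
        rw [← hs_mul n (by norm_num) (neg_ne_zero.2 hA0)]
        congr 1
        ring
      rw [h5, ← h3, mul_one, hs_neg_one]
    have hprod : hs n ((4 * (n : ℤ) * (4 * n) - bi G1 x y ^ 2) *
        (4 * n * 7 - bi G1 x e7 ^ 2)) = 1 := by
      rw [hcmp]
      have e5 : 4 * (n : ℤ) * (2 * (17 : ℕ) * dd3 x y e7) ^ 2 =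
        n * (2 * (2 * (17 : ℕ) * dd3 x y e7)) ^ 2 := by ring
      rw [e5]
      apply hs_norm hn
      rw [← e5, ← hcmp]
      exact mul_ne_zero hg0 hA0
    rw [hs_mul n hg0 hA0, hA] at hprod
    rcases c2_neg_pm n with h3 | h3 <;> rw [h3] at hprod ⊢ <;> linarith

/-- the cocycle relation -/
theorem KK_cocyc {n : ℕ} (hn : Ev n) {x y z : V3} (hx : bi G1 x x = 4 * n)
    (hy : bi G1 y y = 4 * n) (hz : bi G1 z z = 4 * n) : KK n x y * KK n x z = KK n y z := by
  have hn0 : (n : ℤ) ≠ 0 := by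
    obtain ⟨m, rfl, hs, _⟩ := hn
    have := hs.ne_zero
    exact_mod_cast (by omega : 4 * m ≠ 0)
  -- `v` and `- v` against a third vector
  have hneg : ∀ u w : V3, bi G1 u u = 4 * n → bi G1 w w = 4 * n →
      KK n (-u) w = c2 n (-1) * KK n u w := by
    intro u w hu hw
    have h1 := KK_neg hn hu hw
    rcases KK_pm n u w with h2 | h2 <;> rw [h2] at h1 ⊢ <;> linarith
  have hself : ∀ z : V3, bi G1 z z = 4 * n → KK n z z = 1 := by
    intro z hz
    have h1 := KK_neg hn hz hz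
    have h2 : KK n (-z) z = c2 n (-1) := by
      unfold KK
      rw [bi_neg, hz, if_pos (by ring)]
    rw [h2] at h1
    rcases c2_neg_pm n with h3 | h3 <;> rw [h3] at h1 <;> linarith
  by_cases h1 : 4 * (n : ℤ) + bi G1 x y = 0
  · have := eq_neg hx hy h1
    subst this
    rw [hneg x z hx hz]
    have h2 : KK n x (-x) = c2 n (-1) := by
      unfold KK
      rw [if_pos h1]
    rw [h2]
  by_cases h2 : 4 * (n : ℤ) + bi G1 x z = 0
  · have := eq_neg hx hz h2
    subst this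
    have h3 : KK n x (-x) = c2 n (-1) := by
      unfold KK
      rw [if_pos h2]
    rw [KK_comm n y (-x), hneg x y hx hy, h3]
    ring
  by_cases h3 : 4 * (n : ℤ) + bi G1 y z = 0
  · have := eq_neg hy hz h3
    subst this
    have h4 : KK n y (-y) = c2 n (-1) := by
      unfold KK
      rw [if_pos h3]
    rw [h4, KK_comm n x (-y), hneg y x hy hx, KK_comm n y x]
    linear_combination c2 n (-1) * KK_sq n x y
  · have h4 := cocyc L1 (mul_ne_zero (by norm_num : (4 : ℤ) ≠ 0) hn0) hx hy hz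
    have h5 : hs n (2 * ((4 * (n : ℤ) + bi G1 x y) * (4 * (n : ℤ) + bi G1 y z) *
        (4 * (n : ℤ) + bi G1 x z))) = 1 := by
      have hne : 2 * ((4 * (n : ℤ) + bi G1 x y) * (4 * (n : ℤ) + bi G1 y z) *
        (4 * (n : ℤ) + bi G1 x z)) ≠ 0 :=
        mul_ne_zero two_ne_zero (mul_ne_zero (mul_ne_zero h1 h3) h2)
      rw [h4] at hne ⊢
      have e5 : 4 * (n : ℤ) * (4 * (n : ℤ) + (bi G1 x y + bi G1 y z + bi G1 x z)) ^ 2 =
        n * (2 * (4 * (n : ℤ) + (bi G1 x y + bi G1 y z + bi G1 x z))) ^ 2 := by ring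
      rw [e5] at hne ⊢
      exact hs_norm hn hne
    rw [hs_mul n two_ne_zero (mul_ne_zero (mul_ne_zero h1 h3) h2),
      hs_mul n (mul_ne_zero h1 h3) h2, hs_mul n h1 h3, hs_two] at h5
    unfold KK
    rw [if_neg h1, if_neg h2, if_neg h3]
    rcases t2_pm n with a | a <;> rcases hs_pm n h1 with b | b <;> rcases hs_pm n h2 with c | c <;>
      rcases hs_pm n h3 with d | d <;> rw [a, b, c, d] at h5 ⊢ <;> linarith

/-! ### the sign at two -/

theorem sg2_ne {k n : ℕ} {T : ℤ} (hT : T ≠ 0) : sg2 k n T = hs n T := by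
  rw [sg2, if_neg hT, hs]

theorem sg2_zero (k n : ℕ) : sg2 k n 0 = c2 n (-1) * t2 n ^ (k - 1) := by
  rw [sg2, if_pos rfl]

/-- the double of a vector -/
def dbl (v : V3) : V3 := fun i => 2 * v i

theorem bi_dbl (v w : V3) : bi G1 (dbl v) w = 2 * bi G1 v w := by
  rw [biG1, biG1]; simp only [dbl]; ring

theorem bi_dbl' (v w : V3) : bi G1 v (dbl w) = 2 * bi G1 v w := by
  rw [biG1, biG1]; simp only [dbl]; ring

theorem even_of_sq {a q : ℤ} (h : 4 ∣ a ^ 2 + 4 * q) : a % 2 = 0 := by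
  by_contra hc
  obtain ⟨r, hr⟩ := sq8 (x := a) (by omega)
  omega

/-- the sum is even, first lattice -/
theorem par1 {n : ℕ} (h4 : 4 ∣ n) {v w : V3} (hv : v ∈ vec1 n) :
    2 * (((n : ℤ) + ip1 v w) / 2) = n + ip1 v w := by
  have h1 : ip1 v v = n := by rw [ip1_eq]; exact (mem_vec1 n v).1 hv
  have h2 : (v 0 + v 1) % 2 = 0 := by
    apply even_of_sq (q := -2 * (v 0) ^ 2 - 3 * (v 1) ^ 2 - 5 * (v 2) ^ 2 + v 0 * v 1 + v 0 * v 2 +
      2 * (v 1 * v 2))
    rw [ip1] at h1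
    have : (v 0 + v 1) ^ 2 + 4 * (-2 * (v 0) ^ 2 - 3 * (v 1) ^ 2 - 5 * (v 2) ^ 2 + v 0 * v 1 +
      v 0 * v 2 + 2 * (v 1 * v 2)) = - (n : ℤ) := by linear_combination -h1
    rw [this]
    exact (Int.natCast_dvd_natCast.2 h4).neg_right
  have h3 : ip1 v w = (v 0 + v 1) * (w 0 + w 1) + 2 * (3 * (v 0 * w 0) + 5 * (v 1 * w 1) +
      10 * (v 2 * w 2) - 2 * (v 0 * w 1 + v 1 * w 0) - (v 0 * w 2 + v 2 * w 0) -
      2 * (v 1 * w 2 + v 2 * w 1)) := by rw [ip1]; ring
  obtain ⟨t, ht⟩ : ∃ t, v 0 + v 1 = 2 * t := ⟨(v 0 + v 1) / 2, by omega⟩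
  rw [ht, mul_assoc] at h3
  generalize t * (w 0 + w 1) = r at h3
  omega

/-- the sum is even, second lattice -/
theorem par2 {n : ℕ} (h4 : 4 ∣ n) {v w : V3} (hv : v ∈ vec2 n) :
    2 * (((n : ℤ) + ip2 v w) / 2) = n + ip2 v w := by
  have h1 : ip2 v v = n := by rw [ip2_eq]; exact (mem_vec2 n v).1 hv
  have h2 : (v 0 + v 1 + v 2) % 2 = 0 := by
    apply even_of_sq (q := - (v 0) ^ 2 - 6 * (v 1) ^ 2 - 6 * (v 2) ^ 2 + 5 * (v 1 * v 2))
    rw [ip2] at h1
    have : (v 0 + v 1 + v 2) ^ 2 + 4 * (- (v 0) ^ 2 - 6 * (v 1) ^ 2 - 6 * (v 2) ^ 2 +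
      5 * (v 1 * v 2)) = - (n : ℤ) := by linear_combination -h1
    rw [this]
    exact (Int.natCast_dvd_natCast.2 h4).neg_right
  have h3 : ip2 v w = (v 0 + v 1 + v 2) * (w 0 + w 1 + w 2) + 2 * ((v 0 * w 0) + 11 * (v 1 * w 1) +
      11 * (v 2 * w 2) - (v 0 * w 1 + v 1 * w 0) - (v 0 * w 2 + v 2 * w 0) -
      6 * (v 1 * w 2 + v 2 * w 1)) := by rw [ip2]; ring
  obtain ⟨t, ht⟩ : ∃ t, v 0 + v 1 + v 2 = 2 * t := ⟨(v 0 + v 1 + v 2) / 2, by omega⟩
  rw [ht, mul_assoc] at h3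
  generalize t * (w 0 + w 1 + w 2) = r at h3
  omega

theorem sg_KK {n : ℕ} {x y : V3} {T : ℤ} (h : 4 * (n : ℤ) + bi G1 x y = 8 * T) :
    sg2 1 n T = KK n x y := by
  unfold KK
  by_cases hT : T = 0
  · subst hT
    rw [sg2_zero, if_pos (by rw [h]; ring)]
    simp
  · rw [sg2_ne hT, h, if_neg (by intro h0; apply hT; linarith)]
    have e : (8 : ℤ) * T = 2 ^ 2 * (2 * T) := by ring
    rw [e, hs_sq_mul n two_ne_zero (mul_ne_zero two_ne_zero hT), hs_mul n two_ne_zero hT, hs_two]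
    linear_combination -hs n T * t2_sq n

theorem sg_KK2 {n : ℕ} {x y : V3} {T : ℤ} (h : 4 * (n : ℤ) + bi G1 x y = T) :
    sg2 2 n T = t2 n * KK n x y := by
  unfold KK
  by_cases hT : T = 0
  · subst hT
    rw [sg2_zero, if_pos (by rw [h])]
    ring
  · rw [sg2_ne hT, h, if_neg hT]
    linear_combination -hs n T * t2_sq n

/-- the sign at two -/
theorem sign_two {n : ℕ} (hn : Ev n) : HasSign n 2 := by
  have h4 : 4 ∣ n := by
    obtain ⟨m, rfl, _⟩ := hn
    exact ⟨m, rfl⟩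
  have e1 : ∀ v ∈ vec1 n, bi G1 (dbl v) (dbl v) = 4 * n := by
    intro v hv
    rw [bi_dbl, bi_dbl', (mem_vec1 n v).1 hv]; ring
  have e2 : ∀ v ∈ vec2 n, bi G1 (mu v) (mu v) = 4 * n := by
    intro v hv
    rw [bi_mu_mu, (mem_vec2 n v).1 hv]
  by_cases hne : ∃ e, bi G1 e e = 4 * n
  · obtain ⟨e, he⟩ := hne
    refine ⟨fun v => KK n e (dbl v), fun w => t2 n * KK n e (mu w), ?_, ?_, ?_, ?_, ?_⟩
    · exact fun v => KK_pm n _ _
    · intro v
      show t2 n * KK n e (mu v) = 1 ∨ t2 n * KK n e (mu v) = -1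
      rcases t2_pm n with h1 | h1 <;> rcases KK_pm n e (mu v) with h2 | h2 <;> rw [h1, h2] <;>
        norm_num
    · intro v hv w hw
      rw [Sg, if_pos rfl, sg_KK (x := dbl v) (y := dbl w), KK_cocyc hn he (e1 v hv) (e1 w hw)]
      have h1 := par1 h4 (w := w) hv
      rw [bi_dbl, bi_dbl', ← ip1_eq]
      linarith
    · intro v hv w hw
      rw [Sg, if_pos rfl, sg_KK (x := mu v) (y := mu w), ← KK_cocyc hn he (e2 v hv) (e2 w hw)]
      · linear_combination -KK n e (mu v) * KK n e (mu w) * t2_sq n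
      have h1 := par2 h4 (w := w) hv
      rw [bi_mu_mu, ← ip2_eq]
      linarith
    · intro v hv w hw
      rw [Sg, if_pos rfl, sg_KK2 (x := dbl v) (y := mu w), ← KK_cocyc hn he (e1 v hv) (e2 w hw)]
      · ring
      rw [bi_dbl, bi_mu]
      ring
  · refine ⟨fun _ => 1, fun _ => 1, fun _ => Or.inl rfl, fun _ => Or.inl rfl, ?_, ?_, ?_⟩
    · intro v hv
      exact absurd ⟨_, e1 v hv⟩ hne
    · intro v hv
      exact absurd ⟨_, e2 v hv⟩ hne
    · intro v hv
      exact absurd ⟨_, e1 v hv⟩ hne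

end

end Pool.Agent.N970.P17G
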