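import Mathlib
import Pool.Agent.N844.P17G.AA
import Pool.Agent.N970.P17G.Two

/-!
# The signs at the odd primes
-/

set_option autoImplicit false

namespace Pool.Agent.N970.P17G

open Finset
open Pool.Agent.N969.P15 (V3 c2 Ev)
open Pool.Agent.N972.P17
open Pool.Agent.N969.P17G
open Pool.Agent.N970.P17 (mem_vec1 mem_vec2 ip1_eq ip2_eq)
open Pool.Agent.N844.P17G (Frm frm1 frm2 Iso sig sig_mul sig_rel sig_smul sig_sq psi1 psi1_mul psi1_sq
  Sim sim_iso sim_sig sim_smul rel dvd_cast jac_eq iso_of iso1' iso2')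

section gen

variable {p : ℕ} [hp : Fact p.Prime]

theorem jac_sq {x : ℤ} (hx : ¬ (p : ℤ) ∣ x) : jacobiSym (x * x) p = 1 := by
  rw [jac_eq]
  push_cast
  rw [← pow_two]
  exact quadraticChar_sq_one' (by rw [Ne, ← dvd_cast]; exact hx)

theorem jac_neg (x : ℤ) : jacobiSym (-1) p * jacobiSym (-x) p = jacobiSym x p := by
  rw [← jacobiSym.mul_left]
  congr 1
  ring

/-- the frozen sign and the relative sign -/
theorem sgp_rel {n : ℕ} (hn : p ∣ n) (hn2 : ¬ p ^ 2 ∣ n) (k : ℕ) (T : ℤ) :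
    sgp k n p T = jacobiSym (-1) p * rel p n (k * n - T) T := by
  obtain ⟨n', hn'⟩ := hn
  have hp0 : (p : ℤ) ≠ 0 := by exact_mod_cast hp.out.ne_zero
  have hnp : n / p = n' := by rw [hn']; exact Nat.mul_div_cancel_left _ hp.out.pos
  have hn0 : ¬ (p : ℤ) ∣ n' := by
    intro h
    have h3 : p ∣ n' := by exact_mod_cast h
    obtain ⟨k, hk⟩ := h3
    exact hn2 ⟨k, by rw [hn', hk]; ring⟩
  unfold sgp rel
  by_cases h1 : (p : ℤ) ∣ T
  · rw [if_pos h1, if_neg (not_not.2 h1)]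
    by_cases h2 : (p : ℤ) ∣ T / p
    · rw [if_pos h2, if_neg (not_not.2 h2), hnp]
      obtain ⟨t, ht⟩ := h1
      have e1 : T / p = t := by rw [ht]; exact Int.mul_ediv_cancel_left _ hp0
      rw [e1] at h2
      obtain ⟨s, hs⟩ := h2
      have e2 : ((k : ℤ) * n - T) / p = k * n' - p * s := by
        rw [ht, hs, hn']
        push_cast
        have : (k : ℤ) * (p * n') - p * (p * s) = p * (k * n' - p * s) := by ring
        rw [this]
        exact Int.mul_ediv_cancel_left _ hp0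
      rw [e2, jac_eq, jac_eq, jac_eq]
      push_cast
      rw [ZMod.natCast_self, zero_mul, sub_zero]
      have e3 : (n' : ZMod p) * (k * n') = k * (n' ^ 2) := by ring
      have e4 : (-(k : ZMod p)) = (-1) * k := by ring
      rw [e3, e4, map_mul, map_mul, quadraticChar_sq_one', mul_one]
      rw [dvd_cast] at hn0
      push_cast at hn0
      exact hn0
    · rw [if_neg h2, if_pos h2, jac_neg, hnp, mul_comm]
  · rw [if_neg h1, if_pos h1, jac_neg]

theorem sgp_four (h2 : p ≠ 2) {n : ℕ} (k : ℕ) (T : ℤ) : sgp k n p (4 * T) = sgp k n p T := by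
  have hpi := Nat.prime_iff_prime_int.1 hp.out
  have hp0 : (p : ℤ) ≠ 0 := by exact_mod_cast hp.out.ne_zero
  have h4 : ¬ (p : ℤ) ∣ 2 := by
    intro h
    have h3 : p ∣ 2 := by exact_mod_cast h
    exact h2 ((Nat.prime_dvd_prime_iff_eq hp.out Nat.prime_two).1 h3)
  have h44 : ¬ (p : ℤ) ∣ 4 := by
    intro h
    have : (4 : ℤ) = 2 * 2 := by norm_num
    rw [this] at h
    exact (hpi.dvd_or_dvd h).elim h4 h4
  have hd : ∀ x : ℤ, (p : ℤ) ∣ 4 * x ↔ (p : ℤ) ∣ x := by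
    intro x
    exact ⟨fun h => (hpi.dvd_or_dvd h).resolve_left h44, fun h => dvd_mul_of_dvd_right h _⟩
  have hj : ∀ x : ℤ, jacobiSym (4 * x) p = jacobiSym x p := by
    intro x
    have : (4 : ℤ) * x = 2 * 2 * x := by ring
    rw [this, jacobiSym.mul_left, jac_sq h4, one_mul]
  unfold sgp
  by_cases h1 : (p : ℤ) ∣ T
  · rw [if_pos h1, if_pos ((hd T).2 h1)]
    obtain ⟨t, ht⟩ := h1
    have e1 : T / p = t := by rw [ht]; exact Int.mul_ediv_cancel_left _ hp0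
    have e2 : 4 * T / p = 4 * t := by
      rw [ht]
      have : (4 : ℤ) * (p * t) = p * (4 * t) := by ring
      rw [this]
      exact Int.mul_ediv_cancel_left _ hp0
    rw [e1, e2]
    by_cases h2 : (p : ℤ) ∣ t
    · rw [if_pos h2, if_pos ((hd t).2 h2)]
    · rw [if_neg h2, if_neg (by rw [hd]; exact h2), mul_assoc, hj]
  · rw [if_neg h1, if_neg (by rw [hd]; exact h1), hj]

/-- the frozen sign of two vectors is the relative sign -/
theorem sgp_sig {ip : V3 → V3 → ℤ} (F : Frm ip) (h2 : p ≠ 2) (h17 : p ≠ 17) {n k : ℕ} (hn : p ∣ n)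
    (hn2 : ¬ p ^ 2 ∣ n) (hk : ¬ p ∣ k) {v w : V3} (hv : ip v v = n) (hw : ip w w = (k : ℤ) ^ 2 * n)
    {T : ℤ} (hT : 2 * T = k * n + ip v w) : sgp k n p T = sig ip p v w := by
  have hk0 : ((k : ℤ) : ZMod p) ≠ 0 := by
    rw [Ne, ← dvd_cast]
    intro h
    exact hk (by exact_mod_cast h)
  have hpn : (p : ℤ) ∣ n := by exact_mod_cast hn
  have iv : Iso ip p v := iso_of F hv hpn (by intro h; exact hn2 (by exact_mod_cast h))
  have iw : Iso ip p w := iso_of F hw (dvd_mul_of_dvd_right hpn _)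
    (Pool.Agent.N844.P17G.not_sq hp.out hn2 hk)
  have e1 : ∀ u x : V3, ip u ((-1 : ℤ) • x) = - ip u x := by
    intro u x
    have e : (-1 : ℤ) • x = (-1 : ℤ) • x + (0 : ℤ) • x := by rw [zero_smul, add_zero]
    rw [e, F.lin]
    ring
  have hm1 : ((-1 : ℤ) : ZMod p) ≠ 0 := by simp
  have iw' : Iso ip p ((-1 : ℤ) • w) := sim_iso F F (sim_smul F (-1)) h2 h17 hm1 iw
  have h1 := sig_rel F h2 h17 (c := k) hn hn2 hk0 hv (w := (-1 : ℤ) • w) (S := k * n - T) (T := T)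
    (by rw [e1, F.symm, e1, F.symm, neg_neg]; exact hw) (by ring) (by rw [e1]; linarith)
  rw [sgp_rel hn hn2, ← h1, ← sig_mul F h2 h17 iv iw iw', sig_smul h2 h17 F hm1 iw, ← jac_eq,
    mul_comm, mul_assoc, ← jacobiSym.mul_left]
  norm_num

end gen

theorem sim_mu : Sim ip2 ip1 2 mu where
  iso := by intro v w; rw [ip1, ip2, mu0, mu1, mu2, mu0, mu1, mu2]; ring
  lin := by
    intro x y v w
    funext i
    fin_cases i <;> simp [mu] <;> ring

/-- the sign at an odd prime -/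
theorem sign_odd {n p : ℕ} (hp : p.Prime) (h2 : p ≠ 2) (h17 : p ≠ 17) (hn : p ∣ n)
    (hn2 : ¬ p ^ 2 ∣ n) : HasSign n p := by
  have : Fact p.Prime := ⟨hp⟩
  have hN : ∀ v ∈ vec1 n, ip1 v v = n := fun v hv => by rw [ip1_eq]; exact (mem_vec1 n v).1 hv
  have hN2 : ∀ v ∈ vec2 n, ip2 v v = n := fun v hv => by rw [ip2_eq]; exact (mem_vec2 n v).1 hv
  have i1 : ∀ v ∈ vec1 n, Iso ip1 p v := fun v hv => iso1' hp hn hn2 (hN v hv)
  have i2 : ∀ v ∈ vec2 n, Iso ip2 p v := fun v hv => iso2' hp hn hn2 (hN2 v hv)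
  have f2 := Pool.Agent.N844.P17G.f2 (p := p) h2
  have i3 : ∀ v ∈ vec2 n, Iso ip1 p (mu v) := fun v hv => sim_iso frm2 frm1 sim_mu h2 h17 f2 (i2 v hv)
  have hp1 : ¬ p ∣ 1 := hp.not_dvd_one
  have hp2 : ¬ p ∣ 2 := fun h => h2 ((Nat.prime_dvd_prime_iff_eq hp Nat.prime_two).1 h)
  have pm : ∀ x : ℤ, x * x = 1 → x = 1 ∨ x = -1 := fun x hx => mul_self_eq_one_iff.1 hx
  classical
  refine ⟨fun v => if v ∈ vec1 n then psi1 p v else 1,
    fun v => if v ∈ vec2 n then psi1 p (mu v) else 1, ?_, ?_, ?_, ?_, ?_⟩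
  · intro v
    show (if v ∈ vec1 n then psi1 p v else 1) = 1 ∨ (if v ∈ vec1 n then psi1 p v else 1) = -1
    split_ifs with h
    · exact pm _ (psi1_sq h2 h17 (i1 v h))
    · exact Or.inl rfl
  · intro v
    show (if v ∈ vec2 n then psi1 p (mu v) else 1) = 1 ∨
      (if v ∈ vec2 n then psi1 p (mu v) else 1) = -1
    split_ifs with h
    · exact pm _ (psi1_sq h2 h17 (i3 v h))
    · exact Or.inl rfl
  · intro v hv w hw
    simp only [if_pos hv, if_pos hw]
    rw [Sg, if_neg h2, psi1_mul h2 h17 (i1 v hv) (i1 w hw)]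
    refine sgp_sig (k := 1) frm1 h2 h17 hn hn2 hp1 (hN v hv) (by rw [hN w hw]; push_cast; ring) ?_
    have h1 := Pool.Agent.N844.P17G.par1 (n := n) (k := 1) (hN v hv)
      (w := w) (by rw [hN w hw]; push_cast; ring)
    push_cast at h1 ⊢
    omega
  · intro v hv w hw
    simp only [if_pos hv, if_pos hw]
    rw [Sg, if_neg h2, psi1_mul h2 h17 (i3 v hv) (i3 w hw),
      sim_sig frm2 frm1 sim_mu h2 h17 f2 (i2 v hv) (i2 w hw)]
    refine sgp_sig (k := 1) frm2 h2 h17 hn hn2 hp1 (hN2 v hv) (by rw [hN2 w hw]; push_cast; ring) ?_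
    have h1 := Pool.Agent.N844.P17G.par2 (n := n) (k := 1) (hN2 v hv)
      (w := w) (by rw [hN2 w hw]; push_cast; ring)
    push_cast at h1 ⊢
    omega
  · intro v hv w hw
    simp only [if_pos hv, if_pos hw]
    rw [Sg, if_neg h2, psi1_mul h2 h17 (i1 v hv) (i3 w hw)]
    have he : ∃ t, ipx v w = 2 * t := by
      refine ⟨v 0 * (2 * w 0 - 12 * w 1 + 5 * w 2) + v 1 * (4 * w 0 + 10 * w 1 - 7 * w 2) +
        v 2 * (-3 * w 0 + w 1 + 18 * w 2), ?_⟩
      rw [ipx]; ring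
    obtain ⟨t, ht⟩ := he
    have e1 : 2 * (2 * (n : ℤ) + ipx v w) = 4 * (n + t) := by rw [ht]; ring
    rw [e1, sgp_four h2]
    refine sgp_sig (k := 2) frm1 h2 h17 hn hn2 hp2 (hN v hv) ?_ ?_
    · rw [sim_mu.iso, hN2 w hw]; push_cast; ring
    · rw [ip1_eq, bi_mu, ht]; push_cast; ring

end Pool.Agent.N970.P17G
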