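import Mathlib
import Pool.Agent.N970.P17G.Odd

/-!
# Project P17G: `S_ORTG` and `S_ORTGE`
-/

set_option autoImplicit false

namespace Pool.Agent.N970.P17G

open Finset
open Pool.Agent.N969.P15 (V3 c2 Ev)
open Pool.Agent.N972.P17
open Pool.Agent.N969.P17G
open Pool.Agent.N970.P17 (mem_vec1 mem_vec2 ip1_eq ip2_eq)

/-! ### unitary divisors -/

theorem sum_unitary {n D : ℕ} (hn : n ≠ 0) (hD : D ∣ n) (hc : Nat.Coprime D (n / D))
    (f : Finset ℕ → ℤ) :
    ∑ A ∈ D.divisors.filter (fun A => Nat.Coprime A (n / A)), f A.primeFactors =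
      ∑ s ∈ D.primeFactors.powerset, f s := by
  have hD0 : D ≠ 0 := fun h => hn (by rw [h] at hD; exact zero_dvd_iff.1 hD)
  -- quotients
  have hq : ∀ A, A ∣ D → n / A = (n / D) * (D / A) := by
    intro A hA
    obtain ⟨k, rfl⟩ := hD
    obtain ⟨l, rfl⟩ := hA
    have hA0 : 0 < A := Nat.pos_of_ne_zero (by rintro rfl; simp at hD0)
    have hl0 : 0 < l := Nat.pos_of_ne_zero (by rintro rfl; simp at hD0)
    rw [Nat.mul_div_cancel_left _ (Nat.mul_pos hA0 hl0), Nat.mul_div_cancel_left _ hA0, mul_assoc,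
      Nat.mul_div_cancel_left _ hA0, mul_comm]
  have hne : ∀ p ∈ D.primeFactors, D.factorization p ≠ 0 := by
    intro p hp
    exact (Nat.Prime.factorization_pos_of_dvd (Nat.prime_of_mem_primeFactors hp) hD0
      (Nat.dvd_of_mem_primeFactors hp)).ne'
  have hprod : ∏ p ∈ D.primeFactors, p ^ D.factorization p = D := by
    have := Nat.prod_factorization_pow_eq_self hD0
    rwa [Finsupp.prod, Nat.support_factorization] at this
  refine Finset.sum_bij' (fun A _ => A.primeFactors) (fun s _ => ∏ p ∈ s, p ^ D.factorization p)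
    ?_ ?_ ?_ ?_ ?_
  · intro A hA
    rw [mem_filter, Nat.mem_divisors] at hA
    exact mem_powerset.2 (Nat.primeFactors_mono hA.1.1 hD0)
  · intro s hs
    rw [mem_powerset] at hs
    have h1 : (∏ p ∈ s, p ^ D.factorization p) * ∏ p ∈ D.primeFactors \ s, p ^ D.factorization p =
        D := by rw [mul_comm, Finset.prod_sdiff hs, hprod]
    have h2 : (∏ p ∈ s, p ^ D.factorization p) ∣ D := ⟨_, h1.symm⟩
    rw [mem_filter, Nat.mem_divisors]
    refine ⟨⟨h2, hD0⟩, ?_⟩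
    rw [hq _ h2]
    apply Nat.Coprime.mul_right
    · exact hc.coprime_dvd_left h2
    · have h3 : D / (∏ p ∈ s, p ^ D.factorization p) =
          ∏ p ∈ D.primeFactors \ s, p ^ D.factorization p := by
        apply Nat.div_eq_of_eq_mul_right
        · apply Finset.prod_pos
          intro p hp
          exact pow_pos (Nat.prime_of_mem_primeFactors (hs hp)).pos _
        · exact h1.symm
      rw [h3]
      apply Nat.Coprime.prod_left
      intro p hp
      apply Nat.Coprime.prod_right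
      intro q hq
      rw [mem_sdiff] at hq
      apply Nat.coprime_pow_primes _ _ (Nat.prime_of_mem_primeFactors (hs hp))
        (Nat.prime_of_mem_primeFactors hq.1)
      rintro rfl
      exact hq.2 hp
  · intro A hA
    rw [mem_filter, Nat.mem_divisors] at hA
    obtain ⟨⟨hA, -⟩, hA2⟩ := hA
    have hA0 : A ≠ 0 := fun h => hD0 (by rw [h] at hA; exact zero_dvd_iff.1 hA)
    rw [hq A hA] at hA2
    have hA3 := Nat.Coprime.coprime_mul_left_right hA2
    show ∏ p ∈ A.primeFactors, p ^ D.factorization p = A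
    have h1 : ∀ p ∈ A.primeFactors, D.factorization p = A.factorization p := by
      intro p hp
      have hpp := Nat.prime_of_mem_primeFactors hp
      have h2 : D = A * (D / A) := (Nat.mul_div_cancel' hA).symm
      have h3 : D / A ≠ 0 := by
        intro h
        rw [h, mul_zero] at h2
        exact hD0 h2
      have h5 : (D / A).factorization p = 0 := by
        apply Nat.factorization_eq_zero_of_not_dvd
        intro h
        exact hpp.one_lt.ne' (Nat.eq_one_of_dvd_coprimes hA3 (Nat.dvd_of_mem_primeFactors hp) h)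
      rw [h2, Nat.factorization_mul hA0 h3, Finsupp.add_apply, h5, add_zero]
    rw [Finset.prod_congr rfl (fun p hp => by rw [h1 p hp])]
    have := Nat.prod_factorization_pow_eq_self hA0
    rwa [Finsupp.prod, Nat.support_factorization] at this
  · intro s hs
    rw [mem_powerset] at hs
    show (∏ p ∈ s, p ^ D.factorization p).primeFactors = s
    have h0 : ∏ p ∈ s, p ^ D.factorization p ≠ 0 := by
      rw [Finset.prod_ne_zero_iff]
      intro p hp
      exact pow_ne_zero _ (Nat.prime_of_mem_primeFactors (hs hp)).ne_zero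
    ext q
    rw [Nat.mem_primeFactors]
    constructor
    · rintro ⟨hq, hd, -⟩
      rw [Prime.dvd_finsetProd_iff hq.prime] at hd
      obtain ⟨p, hp, hd⟩ := hd
      have := (Nat.prime_dvd_prime_iff_eq hq (Nat.prime_of_mem_primeFactors (hs hp))).1
        (hq.dvd_of_dvd_pow hd)
      rwa [this]
    · intro hq
      refine ⟨Nat.prime_of_mem_primeFactors (hs hq), ?_, h0⟩
      exact dvd_trans (dvd_pow_self q (hne q (hs hq))) (Finset.dvd_prod_of_mem _ hq)
  · intro A _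
    rfl

theorem sum_powerset_signs (s : Finset ℕ) (f : ℕ → ℤ) (hf : ∀ p, f p = 1 ∨ f p = -1) :
    (2 : ℤ) ^ s.card ∣ ∑ t ∈ s.powerset, ∏ p ∈ t, f p := by
  rw [← Finset.prod_one_add]
  rw [← Finset.prod_const]
  apply Finset.prod_dvd_prod_of_dvd
  intro p _
  rcases hf p with h | h <;> rw [h] <;> norm_num

/-! ### the characters -/

/-- the product of the local signs -/
def Sgn (k A n : ℕ) (T : ℤ) : ℤ := ∏ p ∈ A.primeFactors, Sg k p n T

theorem Sgn_E (k A n : ℕ) (T : ℤ) : sgnE k A n T = Sgn k A n T := rfl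

theorem Sgn_O (k n : ℕ) {A : ℕ} (hA : Odd A) (T : ℤ) : sgn k A n T = Sgn k A n T := by
  unfold sgn Sgn
  refine Finset.prod_congr rfl fun p hp => ?_
  rw [Sg, if_neg]
  rintro rfl
  exact (Nat.not_even_iff_odd.2 hA) (even_iff_two_dvd.2 (Nat.dvd_of_mem_primeFactors hp))

/-- the character sums of the vectors of norm `n`: general form -/
theorem chars {n : ℕ} (hn0 : n ≠ 0) (h : ∀ p, p.Prime → p ∣ n → HasSign n p) {D : ℕ} (hD : D ∣ n)
    (hc : Nat.Coprime D (n / D)) : ∃ x z : ℕ → ℤ,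
    (∀ A, A ∣ n → (∑ v ∈ vec1 n, ∑ w ∈ vec1 n, Sgn 1 A n ((n + ip1 v w) / 2)) = x A ^ 2 ∧
      (∑ v ∈ vec2 n, ∑ w ∈ vec2 n, Sgn 1 A n ((n + ip2 v w) / 2)) = z A ^ 2 ∧
      (∑ v ∈ vec1 n, ∑ w ∈ vec2 n, Sgn 2 A n (2 * (2 * n + ipx v w))) = x A * z A) ∧
    x 1 = (vec1 n).card ∧ z 1 = (vec2 n).card ∧
    (2 : ℤ) ^ D.primeFactors.card ∣ ∑ A ∈ D.divisors.filter (fun A => Nat.Coprime A (n / A)), x A ∧
    (2 : ℤ) ^ D.primeFactors.card ∣
      ∑ A ∈ D.divisors.filter (fun A => Nat.Coprime A (n / A)), z A := by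
  have hch : ∀ p : ℕ, ∃ f g : V3 → ℤ,
      (∀ v, f v = 1 ∨ f v = -1) ∧ (∀ v, g v = 1 ∨ g v = -1) ∧ (p.Prime → p ∣ n →
      (∀ v ∈ vec1 n, ∀ w ∈ vec1 n, Sg 1 p n ((n + ip1 v w) / 2) = f v * f w) ∧
      (∀ v ∈ vec2 n, ∀ w ∈ vec2 n, Sg 1 p n ((n + ip2 v w) / 2) = g v * g w) ∧
      (∀ v ∈ vec1 n, ∀ w ∈ vec2 n, Sg 2 p n (2 * (2 * n + ipx v w)) = f v * g w)) := by
    intro p
    by_cases hp : p.Prime ∧ p ∣ n
    · obtain ⟨f, g, h1, h2, h3⟩ := h p hp.1 hp.2
      exact ⟨f, g, h1, h2, fun _ _ => h3⟩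
    · exact ⟨fun _ => 1, fun _ => 1, fun _ => Or.inl rfl, fun _ => Or.inl rfl,
        fun h1 h2 => absurd ⟨h1, h2⟩ hp⟩
  choose F G hF hG hFG using hch
  refine ⟨fun A => ∑ v ∈ vec1 n, ∏ p ∈ A.primeFactors, F p v,
    fun A => ∑ v ∈ vec2 n, ∏ p ∈ A.primeFactors, G p v, ?_, ?_, ?_, ?_, ?_⟩
  · intro A hA
    have hpA : ∀ p ∈ A.primeFactors, p.Prime ∧ p ∣ n := fun p hp =>
      ⟨Nat.prime_of_mem_primeFactors hp, (Nat.dvd_of_mem_primeFactors hp).trans hA⟩
    refine ⟨?_, ?_, ?_⟩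
    · show _ = (∑ v ∈ vec1 n, ∏ p ∈ A.primeFactors, F p v) ^ 2
      rw [pow_two, Finset.sum_mul_sum]
      refine Finset.sum_congr rfl fun v hv => Finset.sum_congr rfl fun w hw => ?_
      rw [Sgn, ← Finset.prod_mul_distrib]
      exact Finset.prod_congr rfl fun p hp => (hFG p (hpA p hp).1 (hpA p hp).2).1 v hv w hw
    · show _ = (∑ v ∈ vec2 n, ∏ p ∈ A.primeFactors, G p v) ^ 2
      rw [pow_two, Finset.sum_mul_sum]
      refine Finset.sum_congr rfl fun v hv => Finset.sum_congr rfl fun w hw => ?_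
      rw [Sgn, ← Finset.prod_mul_distrib]
      exact Finset.prod_congr rfl fun p hp => (hFG p (hpA p hp).1 (hpA p hp).2).2.1 v hv w hw
    · show _ = (∑ v ∈ vec1 n, ∏ p ∈ A.primeFactors, F p v) *
        ∑ v ∈ vec2 n, ∏ p ∈ A.primeFactors, G p v
      rw [Finset.sum_mul_sum]
      refine Finset.sum_congr rfl fun v hv => Finset.sum_congr rfl fun w hw => ?_
      rw [Sgn, ← Finset.prod_mul_distrib]
      exact Finset.prod_congr rfl fun p hp => (hFG p (hpA p hp).1 (hpA p hp).2).2.2 v hv w hw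
  · show ∑ v ∈ vec1 n, ∏ p ∈ (1 : ℕ).primeFactors, F p v = _
    simp
  · show ∑ v ∈ vec2 n, ∏ p ∈ (1 : ℕ).primeFactors, G p v = _
    simp
  · show _ ∣ ∑ A ∈ D.divisors.filter (fun A => Nat.Coprime A (n / A)),
      ∑ v ∈ vec1 n, ∏ p ∈ A.primeFactors, F p v
    rw [sum_unitary hn0 hD hc (fun s => ∑ v ∈ vec1 n, ∏ p ∈ s, F p v), Finset.sum_comm]
    exact Finset.dvd_sum fun v _ => sum_powerset_signs _ _ (fun p => hF p v)
  · show _ ∣ ∑ A ∈ D.divisors.filter (fun A => Nat.Coprime A (n / A)),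
      ∑ v ∈ vec2 n, ∏ p ∈ A.primeFactors, G p v
    rw [sum_unitary hn0 hD hc (fun s => ∑ v ∈ vec2 n, ∏ p ∈ s, G p v), Finset.sum_comm]
    exact Finset.dvd_sum fun v _ => sum_powerset_signs _ _ (fun p => hG p v)

theorem not17 {n : ℕ} (h : jacobiSym n 17 = -1) {p : ℕ} (hp : p ∣ n) : p ≠ 17 := by
  rintro rfl
  rw [jacobiSym.mod_left, Int.emod_eq_zero_of_dvd (by exact_mod_cast hp),
    jacobiSym.zero_left (by norm_num)] at h
  norm_num at h

theorem sq_free {n p : ℕ} (hp : p.Prime) (hs : Squarefree n) : ¬ p ^ 2 ∣ n := by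
  intro h
  have := hs p (by rwa [← pow_two])
  exact hp.one_lt.ne' (Nat.isUnit_iff.1 this)

theorem signs_odd {n : ℕ} (hn : Cm n) (p : ℕ) (hp : p.Prime) (hd : p ∣ n) : HasSign n p := by
  obtain ⟨hs, h4, h17⟩ := hn
  refine sign_odd hp ?_ (not17 h17 hd) hd (sq_free hp hs)
  rintro rfl
  omega

theorem signs_even {n : ℕ} (hn : Cme n) (p : ℕ) (hp : p.Prime) (hd : p ∣ n) : HasSign n p := by
  obtain ⟨he, h17⟩ := hn
  by_cases h2 : p = 2
  · subst h2
    exact sign_two he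
  · refine sign_odd hp h2 (not17 h17 hd) hd ?_
    obtain ⟨m, rfl, hs, -⟩ := he
    intro h
    apply sq_free hp hs
    refine Nat.Coprime.dvd_of_dvd_mul_left ?_ h
    have h3 : Nat.Coprime p 2 := (Nat.coprime_primes hp Nat.prime_two).2 h2
    have : (4 : ℕ) = 2 ^ 2 := by norm_num
    rw [this]
    exact h3.pow 2 2

theorem P11_one (A n : ℕ) : P11 1 A n =
    ∑ v ∈ vec1 n, ∑ w ∈ vec1 n, sgn 1 A n ((n + ip1 v w) / 2) := by
  unfold P11
  simp only [one_pow, one_mul, Nat.cast_one]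

theorem P22_one (A n : ℕ) : P22 1 A n =
    ∑ v ∈ vec2 n, ∑ w ∈ vec2 n, sgn 1 A n ((n + ip2 v w) / 2) := by
  unfold P22
  simp only [one_pow, one_mul, Nat.cast_one]

theorem P11E_one (A n : ℕ) : P11E 1 A n =
    ∑ v ∈ vec1 n, ∑ w ∈ vec1 n, sgnE 1 A n ((n + ip1 v w) / 2) := by
  unfold P11E
  simp only [one_pow, one_mul, Nat.cast_one]

theorem P22E_one (A n : ℕ) : P22E 1 A n =
    ∑ v ∈ vec2 n, ∑ w ∈ vec2 n, sgnE 1 A n ((n + ip2 v w) / 2) := by
  unfold P22E
  simp only [one_pow, one_mul, Nat.cast_one]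

/-- the character sums of the vectors of norm `n`, odd case -/
theorem t_ORTG : S_ORTG := by
  intro n D hn hD
  have hs : Squarefree n := hn.1
  have hn0 : n ≠ 0 := hs.ne_zero
  have hodd : Odd n := Nat.odd_iff.2 (by have := hn.2.1; omega)
  have hcop : ∀ A, A ∣ n → Nat.Coprime A (n / A) := by
    intro A hA
    have h1 : Squarefree (A * (n / A)) := by rwa [Nat.mul_div_cancel' hA]
    exact (Nat.squarefree_mul_iff.1 h1).1
  obtain ⟨x, z, h1, h2, h3, h4, h5⟩ := chars hn0 (signs_odd hn) hD (hcop D hD)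
  have hfil : D.divisors.filter (fun A => Nat.Coprime A (n / A)) = D.divisors :=
    Finset.filter_true_of_mem fun A hA => hcop A ((Nat.dvd_of_mem_divisors hA).trans hD)
  rw [hfil] at h4 h5
  refine ⟨x, z, ?_, h2, h3, h4, h5⟩
  intro A hA
  have hA' : A ∣ n := hA.trans hD
  have ho : Odd A := hodd.of_dvd_nat hA'
  obtain ⟨a, b, c⟩ := h1 A hA'
  rw [P11_one, P22_one, P12]
  simp only [Sgn_O _ _ ho]
  exact ⟨a, b, c⟩

/-- the character sums of the vectors of norm `n`, even case -/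
theorem t_ORTGE : S_ORTGE := by
  intro n D hn hD hc
  have hn0 : n ≠ 0 := by
    obtain ⟨⟨m, rfl, hs, -⟩, -⟩ := hn
    have := hs.ne_zero
    omega
  obtain ⟨x, z, h1, h2, h3, h4, h5⟩ := chars hn0 (signs_even hn) hD hc
  refine ⟨x, z, ?_, h2, h3, h4, h5⟩
  intro A hA _
  rw [P11E_one, P22E_one, P12E]
  exact h1 A (hA.trans hD)

end Pool.Agent.N970.P17G
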